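import Mathlib
import Pool.Agent.Helper760.EP.Base10

set_option autoImplicit false

namespace Pool.Agent.Results.MP_e57333_lc.Profiles

open Pool.Agent.Helper760.EP

/-- **Which profiles of a pair of strings determine which.**
First line: the machines and encodings quantified over exist.
(a) The Gray–Wyner profile determines the extended profile, where the strings `q` are those of
complexity at most `B n`, for every bound `B` between `3 n` and a power of `n`; without any bound
on the complexity of `q` it does not.
(b), (d) The Wyner profile, even together with the complexities of `x`, `y` and `(x, y)`, determines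
neither the extended profile (with any bound `B n ≥ n` or no bound) nor the Gray–Wyner profile.
(c) The Gray–Wyner profile determines the Wyner profile. -/
theorem result :
    ((∃ U, OptPlain U) ∧ (∃ D, OptCond D) ∧ ∃ pr, PairCode pr) ∧
    ∀ (U : List Bool →. List Bool) (D : List Bool → List Bool →. List Bool)
      (pr : List Bool → List Bool → List Bool), OptPlain U → OptCond D → PairCode pr →
      ((∀ (B : ℕ → ℕ) (d : ℕ), (∀ n, 2 ≤ n → 3 * n ≤ B n ∧ B n ≤ n ^ d) →
          Determines (fun _ => GWp U D) (fun n => EpB U pr (B n))) ∧
        ¬ Determines (fun _ => GWp U D) (fun _ => Ep U pr)) ∧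
      (¬ Determines (fun _ => Wp U D pr) (fun _ => Ep U pr) ∧
        ¬ Determines (fun _ => WCp U D pr) (fun _ => Ep U pr) ∧
        ∀ B : ℕ → ℕ, (∀ n, n ≤ B n) →
          ¬ Determines (fun _ => WCp U D pr) (fun n => EpB U pr (B n))) ∧
      Determines (fun _ => GWp U D) (fun _ => Wp U D pr) ∧
      (¬ Determines (fun _ => Wp U D pr) (fun _ => GWp U D) ∧
        ¬ Determines (fun _ => WCp U D pr) (fun _ => GWp U D)) := by
  refine ⟨exist_all, fun U D pr hU hD hpr => ?_⟩
  have hBD := partBD U D pr hU hD hpr
  refine ⟨⟨fun B d hB => partA U D pr hU hD hpr B d hB, partNA U D pr hU hD hpr⟩,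
    ⟨fun h => hBD.2.1 (weak_of_strong U D pr _ h), hBD.2.1, hBD.2.2⟩,
    partC U D pr hU hD hpr,
    ⟨fun h => hBD.1 (weak_of_strong U D pr _ h), hBD.1⟩⟩

end Pool.Agent.Results.MP_e57333_lc.Profiles
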